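import Pool.Agent.N384.MQ.Tup
import Pool.Agent.N384.MQ.Ex
import Pool.Agent.N384.MQ.Quot

/-!
# Prime tuples whose shifts are near residues with small Fourier coefficients

The asymptotic formula of Hardy and Littlewood for almost all vectors of shifts from products of arbitrary finite families
of residues with small Fourier coefficients, and simultaneously for all the vectors of shifts in a box of side `log ^ W N`
at such a vector. There are explicit families of this kind, and of all their translates, whose size is only a power of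
`log N`.

Definitions used: `Pool.Agent.H373R2.T7.singZ a z`: the partial product over the primes `p ≤ z` of
`(1 - ν(p) / p) / (1 - 1 / p) ^ (s + 1)`, where `ν(p)` is the number of `r < p` for which `p` divides
`r (r + a 1) ... (r + a s)`; `Pool.Agent.H373R2.T7.tupleCount a N`: the sum of
`log p * ∏ i, log (p + a i)` over the primes `p ≤ N` for which all `p + a i` are primes;
`Pool.Agent.H373R2.T7.Admissible a`: for every prime `p` there is an `r` such that `p` divides neither
`r` nor any `r + a i`; `Pool.Agent.H560R3.GB.primeTuples a N`: the number of primes `p ≤ N` for which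
all `p + a i` are primes. From Mathlib: `ZMod.stdAddChar`: the additive character `j ↦ exp (2 π i j / q)` of the integers
modulo `q`; `ZMod.val`: the least residue.

Method: a family of residues modulo `q` with small Fourier coefficients has small exponential sums at all real
frequencies which are not close to integers, and its least residues are not concentrated on short intervals. The
passage from one random shift to prime tuples is from the starting files (`Pool.Agent.W93`, `Pool.Agent.TH890`) and from
`Pool.Agent.N469.PT.Ws` (helper469) and `Pool.Agent.N625.DY.H` (helper625). The fixed exponent `V` comes from a compactness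
argument. Examples: a lemma of Ajtai, Iwaniec, Komlos, Pintz and Szemeredi on quotients by small primes, the Stepanov type
lemma of Heath-Brown and Konyagin for subgroups (library `H435R3.HBK`, `N825.FC`), and Weyl sums without losses
(library `H373R2.NB`).
-/

set_option autoImplicit false

namespace Pool.Agent.N384.Out.TuplesResidueFamilies

open Finset Filter Pool.Agent.H560R3.GB
open Pool.Agent.H373R2.T7 (singZ tupleCount Admissible)

/-- The Fourier coefficients of the residues `y i`, `i ∈ s`, modulo `q` at the nonzero frequencies are at most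
`η` times the number of the residues: `|∑ i ∈ s, e(h y_i / q)| ≤ η |s|` for all `h ≠ 0` modulo `q`. -/
def Flat {ι : Type} (q : ℕ) [NeZero q] (η : ℝ) (s : Finset ι) (y : ι → ZMod q) : Prop :=
  ∀ h : ZMod q, h ≠ 0 → ‖∑ i ∈ s, (ZMod.stdAddChar (h * y i) : ℂ)‖ ≤ η * s.card

/-- The formula of Hardy and Littlewood for the shifts `a 1, ..., a s` and the primes up to `N`: the
singular series converges, its sum `S` predicts the weighted number of prime tuples with an error of
at most `N / log ^ U N`, and, if the shifts are admissible, `S` is positive and `S N / log ^ (s + 1) N`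
predicts the number of prime tuples with a relative error of at most `ε`. -/
def Holds {s : ℕ} (ε : ℝ) (U N : ℕ) (a : Fin s → ℕ) : Prop :=
  ∃ S : ℝ, Filter.Tendsto (fun z => singZ (fun i => (a i : ℤ)) z) Filter.atTop (nhds S) ∧
    |tupleCount (fun i => (a i : ℤ)) N - S * N| ≤ (N : ℝ) / Real.log N ^ U ∧
    (Admissible (fun i => (a i : ℤ)) → 0 < S ∧
      |(primeTuples a N : ℝ) - S * (N / Real.log N ^ (s + 1))| ≤ ε * (S * (N / Real.log N ^ (s + 1))))

open Classical in
/-- **(1)** Let `s ≥ 1`, `κ i ≥ 1`, `B`, `U`, `W`, `a` and `ε > 0` be fixed. There is a number `V` such that the following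
holds for all large `N`. For `i < s` let `q i ≤ N` be integers with `N ≤ q i log ^ a N`, let `y i n`, `n ∈ S i`, be a finite
family of residues modulo `q i` whose Fourier coefficients at the nonzero frequencies are at most
`|S i| / log ^ V (q i)`, and let `0 ≤ c i ≤ B N`. Then for all the vectors `(n 1, ..., n s)` with `n i ∈ S i`, with the
exception of a proportion of at most `1 / log ^ U N`, the formula of Hardy and Littlewood for the primes `p ≤ N` and the
tuple `p, p + a 1, ..., p + a s` holds for all the shifts `a i = c i + κ i y_i(n i) + t i` with `0 ≤ t i ≤ log ^ W N` (with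
the least residues `0 ≤ y_i(n i) < q i`).

**(2)**, **(3)** Examples. The condition of (1) holds modulo all large primes `p` for:
* the quotients `j / r` of the integers `0 ≤ j < S` by the primes `r ≤ R`, if `log ^ (V + 4) p ≤ R < p` and `R ^ 2 ≤ S`; thus
  there are such explicit sets with only `log ^ (3 V + 12) p` members, and the formula of Hardy and Littlewood holds for
  almost all the vectors of shifts from all the products of translates of such sets;
* the cosets of all subgroups of the multiplicative group of an order of at least `p ^ (3/8) log ^ (3 V + 1) p`;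
* the residues `a b + g(a) + k(b)`, `a ∈ A`, `b ∈ B`, for arbitrary sets with `|A| |B| ≥ p log ^ (2 V) p` and arbitrary
  functions `g` and `k`;
* the values `f(n)`, `0 ≤ n < x`, of all integer polynomials of degree `d` whose leading coefficient is not divisible by
  `p`, if `x ^ d ≥ p log ^ C p`, where `C` depends on `d` and `V`. -/
theorem result :
    (∀ (s : ℕ), 1 ≤ s → ∀ (κ : Fin s → ℕ), (∀ i, 1 ≤ κ i) → ∀ (B U W a : ℕ) (ε : ℝ), 0 < ε →
      ∃ V N₀ : ℕ, ∀ N : ℕ, N₀ ≤ N → ∀ (q : Fin s → ℕ) [∀ i, NeZero (q i)], (∀ i, q i ≤ N) →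
        (∀ i, (N : ℝ) ≤ q i * Real.log N ^ a) → ∀ (ι : Fin s → Type) (S : ∀ i, Finset (ι i)) (y : ∀ i, ι i → ZMod (q i)),
        (∀ i, Flat (q i) (1 / Real.log (q i) ^ V) (S i) (y i)) → ∀ c : Fin s → ℕ, (∀ i, c i ≤ B * N) →
        (((Fintype.piFinset S).filter fun n => ¬ ∀ t : Fin s → ℕ, (∀ i, (t i : ℝ) ≤ Real.log N ^ W) →
          Holds ε U N (fun i => c i + κ i * (y i (n i)).val + t i)).card : ℝ) ≤
          (∏ i, ((S i).card : ℝ)) / Real.log N ^ U) ∧
    (∀ V : ℕ, ∃ P₀ : ℕ, ∀ p : ℕ, P₀ ≤ p → ∀ [Fact p.Prime],
      (∀ R S : ℕ, Real.log p ^ (V + 4) ≤ R → R < p → R ^ 2 ≤ S →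
        Flat p (1 / Real.log p ^ V) (((Icc 1 R).filter Nat.Prime) ×ˢ range S)
          (fun z => ((z.2 : ℕ) : ZMod p) * ((z.1 : ℕ) : ZMod p)⁻¹)) ∧
      (∀ (H : Subgroup (ZMod p)ˣ) (s : Finset (ZMod p)ˣ), (∀ u, u ∈ s ↔ u ∈ H) →
        (p : ℝ) ^ (3 / 8 : ℝ) * Real.log p ^ (3 * V + 1) ≤ s.card → ∀ x : ZMod p, x ≠ 0 →
        Flat p (1 / Real.log p ^ V) s (fun u => x * (u : ZMod p))) ∧
      (∀ (A B : Finset (ZMod p)) (g k : ZMod p → ZMod p), (p : ℝ) * Real.log p ^ (2 * V) ≤ A.card * B.card →
        Flat p (1 / Real.log p ^ V) (A ×ˢ B) (fun z => z.1 * z.2 + g z.1 + k z.2))) ∧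
    (∀ d V : ℕ, 1 ≤ d → ∃ C P₀ : ℕ, ∀ p : ℕ, P₀ ≤ p → ∀ [Fact p.Prime] (f : Polynomial ℤ), f.natDegree = d →
      ¬ (p : ℤ) ∣ f.leadingCoeff → ∀ x : ℕ, (p : ℝ) * Real.log p ^ C ≤ (x : ℝ) ^ d →
      Flat p (1 / Real.log p ^ V) (range x) (fun n => ((f.eval (n : ℤ) : ℤ) : ZMod p))) := by
  refine ⟨fun s hs κ hκ B U W a ε hε => ?_, fun V => ?_, fun d V hd => ?_⟩
  · exact Pool.Agent.N384.MQ.mq_tuples s hs κ hκ B U W a ε hε
  · obtain ⟨P₁, h1⟩ := Pool.Agent.N384.MQ.flat_quot V
    obtain ⟨P₂, h2⟩ := Pool.Agent.N384.MQ.flat_coset V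
    obtain ⟨P₃, h3⟩ := Pool.Agent.N384.MQ.flat_prod V
    exact ⟨P₁ + P₂ + P₃, fun p hp _ => ⟨fun R S => h1 p (by omega) R S, fun H s => h2 p (by omega) H s,
      fun A B g k => h3 p (by omega) A B g k⟩⟩
  · exact Pool.Agent.N384.MQ.flat_poly d V hd

end Pool.Agent.N384.Out.TuplesResidueFamilies
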